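import Mathlib
import Pool.Agent.Lib.MP_0bc917_co.Defs
import Pool.Agent.Lib.MP_0bc917_co.Gen4

namespace Pool.Agent.Results.MP_0bc917_co.OnlySizeThree

open Pool.Agent.Lib.MP_0bc917_co

/-- The pattern `τ_m = 1 2 ⋯ (m-2) m (m-1)` in one-line form (positions `0, …, m-1`). -/
def tau (m : ℕ) : Fin m → ℕ := fun i =>
  if i.val + 2 = m then m else if i.val + 1 = m then m - 1 else i.val + 1

/-- For `m ≥ 3` and `r ≥ 1`, the pattern `dist_r(τ_m)` is the least avoided among all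
`dist_r(q)`, `q ∈ S_m`, for all large `n` if and only if `m = 3`. -/
theorem result (m r : ℕ) (hm : 3 ≤ m) (hr : 1 ≤ r) :
    (∃ n₀ : ℕ, ∀ n > n₀, ∀ q : Equiv.Perm (Fin m),
      avCount r (tau m) n ≤ avCount r (fun i => (q i).val) n) ↔ m = 3 :=
  Gen.final m r hm hr (tau m) (fun _ => rfl)

end Pool.Agent.Results.MP_0bc917_co.OnlySizeThree
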